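import Mathlib

/-!
# Witten's conjecture: surgery operations; data and known facts
-/

namespace Pool.Agent.N522.WI

/-- Four-manifolds as in Q1 of Seiberg-Witten simple type with torsion-free `H²(X; ℤ)`. -/
structure Theory where
  /-- the manifolds -/
  Man : Type
  /-- the group ring over `ℚ` of the group `H²(X; ℚ)` -/
  A : Man → Type
  /-- it is a commutative ring -/
  ring : ∀ X, CommRing (A X)
  /-- it has no zero divisors -/
  domain : ∀ X, IsDomain (A X)
  /-- it contains the rational numbers -/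
  alg : ∀ X, Algebra ℚ (A X)
  /-- Donaldson simple type -/
  Simple : Man → Prop
  /-- the element `∑ β_j [K_j]` of the group ring, which determines the Donaldson series for all `w`
  by the structure theorem (any value if `X` does not have simple type) -/
  D : ∀ X, A X
  /-- the element `∑ SW(K) [K]` of the group ring -/
  S : ∀ X, A X
  /-- `Y` is a blow-up of `X`, or comes from `X` by a logarithmic transformation or a knot surgery
  along a torus in a cusp neighbourhood -/
  Move : Man → Man → Prop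
  /-- `Z` is the fibre sum of `X` and `Y` along tori in cusp neighbourhoods -/
  Sum : Man → Man → Man → Prop

attribute [instance] Theory.ring Theory.domain Theory.alg

variable {T : Theory}

/-- Q1 for `X`: simple type, and the two elements agree up to a nonzero rational factor `c(X)`; this
means that the basic classes are the same and the identity of Q1 holds for all `w` and `h` -/
def Q1For (X : T.Man) : Prop := T.Simple X ∧ ∃ c : ℚ, c ≠ 0 ∧ T.D X = c • T.S X

/-- Known facts. -/
structure Facts (T : Theory) : Prop where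
  /-- simple type is not changed by the operations -/
  move_simple : ∀ X Y, T.Move X Y → (T.Simple X ↔ T.Simple Y)
  /-- The formulas for blow-ups, logarithmic transformations and knot surgery: both series change in
  the same way, by `a · (new) = b · (old)` up to a nonzero rational number `k`. -/
  move : ∀ X Y, T.Move X Y → ∃ (u : T.A X →ₐ[ℚ] T.A Y) (a b : T.A Y) (k : ℚ),
    Function.Injective u ∧ a ≠ 0 ∧ b ≠ 0 ∧ k ≠ 0 ∧
      a * T.D Y = k • (b * u (T.D X)) ∧ a * T.S Y = b * u (T.S X)
  /-- manifolds with a cusp neighbourhood have simple type -/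
  sum_simple : ∀ X Y Z, T.Sum X Y Z → T.Simple X ∧ T.Simple Y ∧ T.Simple Z
  /-- The product formulas for fibre sums (Morgan-Mrowka-Szabó, Taubes). -/
  sum : ∀ X Y Z, T.Sum X Y Z → ∃ (u : T.A X →ₐ[ℚ] T.A Z) (v : T.A Y →ₐ[ℚ] T.A Z)
    (a b : T.A Z) (k : ℚ), Function.Injective u ∧ Function.Injective v ∧ a ≠ 0 ∧ b ≠ 0 ∧ k ≠ 0 ∧
      a * T.D Z = k • (b * (u (T.D X) * v (T.D Y))) ∧ a * T.S Z = b * (u (T.S X) * v (T.S Y))

theorem move_iff (F : Facts T) (X Y : T.Man) (h : T.Move X Y) : Q1For X ↔ Q1For Y := by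
  obtain ⟨u, a, b, k, hu, ha, hb, hk, h1, h2⟩ := F.move X Y h
  unfold Q1For
  rw [F.move_simple X Y h]
  refine and_congr_right fun _ => ⟨?_, ?_⟩
  · rintro ⟨c, hc, e⟩
    refine ⟨k * c, mul_ne_zero hk hc, mul_left_cancel₀ ha ?_⟩
    rw [h1, e, map_smul, mul_smul_comm, mul_smul_comm, h2, smul_smul]
  · rintro ⟨c, hc, e⟩
    refine ⟨k⁻¹ * c, mul_ne_zero (inv_ne_zero hk) hc, hu ?_⟩
    refine mul_left_cancel₀ hb ?_
    have h3 : k • (b * u (T.D X)) = c • (b * u (T.S X)) := by
      rw [← h1, e, mul_smul_comm, h2]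
    rw [map_smul, mul_smul_comm, mul_smul, ← h3, smul_smul, inv_mul_cancel₀ hk, one_smul]

theorem sum_iff (F : Facts T) (X Y Z : T.Man) (h : T.Sum X Y Z) (hY : Q1For Y)
    (hS : T.S Y ≠ 0) : Q1For X ↔ Q1For Z := by
  obtain ⟨u, v, a, b, k, hu, hv, ha, hb, hk, h1, h2⟩ := F.sum X Y Z h
  obtain ⟨s1, _, s3⟩ := F.sum_simple X Y Z h
  obtain ⟨_, d, hd, ed⟩ := hY
  have hvS : v (T.S Y) ≠ 0 := fun h0 => hS (hv (by rw [h0, map_zero]))
  constructor
  · rintro ⟨_, c, hc, e⟩
    refine ⟨s3, k * (c * d), mul_ne_zero hk (mul_ne_zero hc hd), mul_left_cancel₀ ha ?_⟩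
    rw [h1, e, ed, map_smul, map_smul, smul_mul_smul_comm, mul_smul_comm, mul_smul_comm, h2,
      smul_smul]
  · rintro ⟨_, c, hc, e⟩
    refine ⟨s1, (k * d)⁻¹ * c, mul_ne_zero (inv_ne_zero (mul_ne_zero hk hd)) hc, hu ?_⟩
    refine mul_right_cancel₀ hvS (mul_left_cancel₀ hb ?_)
    have h3 : (k * d) • (b * (u (T.D X) * v (T.S Y))) = c • (b * (u (T.S X) * v (T.S Y))) := by
      have h4 := h1
      rw [e, mul_smul_comm, h2, ed, map_smul, mul_smul_comm, mul_smul_comm, smul_smul] at h4
      exact h4.symm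
    rw [map_smul, smul_mul_assoc, mul_smul_comm, mul_smul, ← h3, smul_smul,
      inv_mul_cancel₀ (mul_ne_zero hk hd), one_smul]

/-- Equivalence generated by the operations, with fibre sums with manifolds for which Q1 is known. -/
inductive Linked (B : T.Man → Prop) : T.Man → T.Man → Prop
  | move (X Y : T.Man) : T.Move X Y → Linked B X Y
  | sum (X Y Z : T.Man) : B Y → T.Sum X Y Z → Linked B X Z
  | refl (X : T.Man) : Linked B X X
  | symm (X Y : T.Man) : Linked B X Y → Linked B Y X
  | trans (X Y Z : T.Man) : Linked B X Y → Linked B Y Z → Linked B X Z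

theorem linked_iff (F : Facts T) (B : T.Man → Prop) (hB : ∀ Y, B Y → Q1For Y ∧ T.S Y ≠ 0)
    (X Y : T.Man) (h : Linked B X Y) : Q1For X ↔ Q1For Y := by
  induction h with
  | move X Y h => exact move_iff F X Y h
  | sum X Y Z hb h => exact sum_iff F X Y Z h (hB Y hb).1 (hB Y hb).2
  | refl X => exact Iff.rfl
  | symm X Y _ ih => exact ih.symm
  | trans X Y Z _ _ h1 h2 => exact h1.trans h2

end Pool.Agent.N522.WI
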